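import Pool.Agent.H50.AU.Opl

/-! From logarithmic savings at one vector to logarithmic savings in norm under a large projection. -/

set_option autoImplicit false
set_option linter.unusedSectionVars false

namespace Pool.Agent.H50.AU

open scoped InnerProductSpace ComplexInnerProductSpace

variable {H : Type*} [NormedAddCommGroup H] [InnerProductSpace ℂ H] [CompleteSpace H]

/-- the grid parameter -/
noncomputable def rr (B k : ℕ) : ℝ := ((k : ℝ) + 1) ^ (((B + 1 : ℕ) : ℝ)⁻¹)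

/-- the grid -/
noncomputable def NN (B k : ℕ) : ℕ := ⌊Real.exp (rr B k)⌋₊

/-- the grid weight -/
noncomputable def ww (B k : ℕ) : ℝ := rr B k ^ B / Real.exp (rr B k)

theorem rr_pow (B k : ℕ) : rr B k ^ (B + 1) = (k : ℝ) + 1 := by
  unfold rr
  exact Real.rpow_inv_natCast_pow (by positivity) (Nat.succ_ne_zero B)

theorem one_le_rr (B k : ℕ) : 1 ≤ rr B k := by
  unfold rr
  exact Real.one_le_rpow (by linarith [Nat.cast_nonneg (α := ℝ) k]) (by positivity)

theorem exp_one_le (B k : ℕ) : 2 ≤ Real.exp (rr B k) := by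
  have h1 := Real.add_one_le_exp (rr B k)
  have h2 := one_le_rr B k
  linarith

theorem NN_le (B k : ℕ) : (NN B k : ℝ) ≤ Real.exp (rr B k) :=
  Nat.floor_le (Real.exp_pos _).le

theorem lt_NN (B k : ℕ) : Real.exp (rr B k) < NN B k + 1 := Nat.lt_floor_add_one _

theorem two_le_NN (B k : ℕ) : 2 ≤ NN B k := Nat.le_floor (by
  have := exp_one_le B k
  exact_mod_cast this)

theorem log_NN (B k : ℕ) : rr B k / 4 ≤ Real.log (NN B k) := by
  have h1 := lt_NN B k
  have h2 : (2 : ℝ) ≤ NN B k := by exact_mod_cast two_le_NN B k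
  have h3 : Real.exp (rr B k) / 2 ≤ NN B k := by linarith
  have h4 : Real.log (Real.exp (rr B k) / 2) ≤ Real.log (NN B k) :=
    Real.log_le_log (by positivity) h3
  rw [Real.log_div (Real.exp_pos _).ne' (by norm_num), Real.log_exp] at h4
  have h5 := Real.log_two_lt_d9
  have h6 := one_le_rr B k
  linarith

theorem ww_pos (B k : ℕ) : 0 < ww B k := by
  have := one_le_rr B k
  unfold ww
  positivity

theorem grid_num (B k : ℕ) (D : ℝ) :
    ww B k * |D * (NN B k / Real.log (NN B k) ^ (2 * B + 1))| ≤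
      (|D| * 4 ^ (2 * B + 1)) * (1 / ((k : ℝ) + 1)) := by
  have hr := one_le_rr B k
  have hN2 : (2 : ℝ) ≤ NN B k := by exact_mod_cast two_le_NN B k
  have hL := log_NN B k
  have hL0 : 0 < rr B k / 4 := by linarith
  have hpos : 0 ≤ (NN B k : ℝ) / Real.log (NN B k) ^ (2 * B + 1) := by
    have : 0 ≤ Real.log (NN B k) := by linarith
    positivity
  have h1 : |D * (NN B k / Real.log (NN B k) ^ (2 * B + 1))| ≤
      |D| * (Real.exp (rr B k) / (rr B k / 4) ^ (2 * B + 1)) := by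
    rw [abs_mul, abs_of_nonneg hpos]
    refine mul_le_mul_of_nonneg_left ?_ (abs_nonneg D)
    exact div_le_div₀ (Real.exp_pos _).le (NN_le B k) (by positivity)
      (pow_le_pow_left₀ hL0.le hL _)
  have h2 := mul_le_mul_of_nonneg_left h1 (ww_pos B k).le
  refine h2.trans (le_of_eq ?_)
  rw [← rr_pow B k]
  unfold ww
  have h3 : Real.exp (rr B k) ≠ 0 := (Real.exp_pos _).ne'
  have h4 : rr B k ≠ 0 := by linarith
  rw [div_pow]
  field_simp
  ring

/-- `φ(x* x)` for the weight `φ = ∑ ⟪ξ i, (·) ξ i⟫` -/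
noncomputable def sq {ι : Type*} (ξ : ι → H) (x : H →L[ℂ] H) : ENNReal :=
  ∑' i, ENNReal.ofReal (‖x (ξ i)‖ ^ 2)

theorem sq_smul {ι : Type*} (ξ : ι → H) (c : ℂ) (x : H →L[ℂ] H) :
    sq ξ (c • x) = ENNReal.ofReal (‖c‖ ^ 2) * sq ξ x := by
  unfold sq
  rw [← ENNReal.tsum_mul_left]
  congr 1
  funext i
  have h : (c • x) (ξ i) = c • x (ξ i) := rfl
  rw [h, norm_smul, mul_pow, ENNReal.ofReal_mul (by positivity)]

/-- interpolation between grid points -/
theorem grid_interp (W : ℕ → H →L[ℂ] H) (M : ℝ) (hM : ∀ n, ‖W n‖ ≤ M) (e : H →L[ℂ] H)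
    (he : ‖e‖ ≤ 1) (B : ℕ) (a : ℝ) (ha : 0 < a)
    (h : ∀ k, a * ww B k * ‖(∑ n ∈ Finset.Icc 1 (NN B k), W n) * e‖ ≤ 2) :
    ∃ C : ℝ, ∀ N : ℕ, 2 ≤ N →
      ‖(∑ n ∈ Finset.Icc 1 N, W n) * e‖ ≤ C * (N / Real.log N ^ B) := by
  have hM0 : 0 ≤ M := (norm_nonneg _).trans (hM 0)
  refine ⟨2 * 2 ^ B / a + M * (1 + B.factorial), fun N hN => ?_⟩
  have hNR : (2 : ℝ) ≤ N := by exact_mod_cast hN
  set L := Real.log N with hL
  have hL0 : 0 < L := Real.log_pos (by linarith)
  have hexpL : Real.exp L = N := Real.exp_log (by linarith)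
  have hLB : 0 < L ^ B := by positivity
  have hQ : 0 ≤ (N : ℝ) / L ^ B := by positivity
  have hA : 0 ≤ 2 * 2 ^ B / a := by positivity
  have triv : ∀ I : Finset ℕ, ‖(∑ n ∈ I, W n) * e‖ ≤ M * I.card := by
    intro I
    refine (norm_mul_le _ _).trans ?_
    have h1 : ‖∑ n ∈ I, W n‖ ≤ M * I.card := by
      refine (norm_sum_le _ _).trans ?_
      refine (Finset.sum_le_card_nsmul _ _ M fun n _ => hM n).trans (le_of_eq ?_)
      rw [nsmul_eq_mul]
      ring
    calc ‖∑ n ∈ I, W n‖ * ‖e‖ ≤ (M * I.card) * 1 :=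
          mul_le_mul h1 he (norm_nonneg _) (by positivity)
      _ = M * I.card := mul_one _
  by_cases hL1 : L < 1
  · have h1 := triv (Finset.Icc 1 N)
    rw [Nat.card_Icc, Nat.add_sub_cancel] at h1
    have h2 : (N : ℝ) ≤ N / L ^ B := by
      rw [le_div_iff₀ hLB]
      have : L ^ B ≤ 1 := pow_le_one₀ hL0.le hL1.le
      nlinarith
    have h3 : (0 : ℝ) ≤ B.factorial := by positivity
    calc _ ≤ M * N := h1
      _ ≤ M * (N / L ^ B) := mul_le_mul_of_nonneg_left h2 hM0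
      _ ≤ _ := by
        refine mul_le_mul_of_nonneg_right ?_ hQ
        nlinarith
  · push Not at hL1
    -- the grid index
    have hfl : 1 ≤ ⌊L ^ (B + 1)⌋₊ := Nat.le_floor (by
      have := one_le_pow₀ (n := B + 1) hL1
      exact_mod_cast this)
    obtain ⟨k, hk⟩ : ∃ k, ⌊L ^ (B + 1)⌋₊ = k + 1 := ⟨_, (Nat.sub_add_cancel hfl).symm⟩
    have hk1 : (k : ℝ) + 1 ≤ L ^ (B + 1) := by
      have := Nat.floor_le (pow_nonneg hL0.le (B + 1))
      rw [hk] at this
      exact_mod_cast this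
    have hk2 : L ^ (B + 1) < (k : ℝ) + 1 + 1 := by
      have := Nat.lt_floor_add_one (L ^ (B + 1))
      rw [hk] at this
      exact_mod_cast this
    set r := rr B k with hr
    have hr1 : 1 ≤ r := one_le_rr B k
    have hrp : r ^ (B + 1) = (k : ℝ) + 1 := rr_pow B k
    have hrL : r ≤ L := by
      by_contra hc
      push Not at hc
      have := pow_lt_pow_left₀ hc hL0.le (Nat.succ_ne_zero B)
      rw [Nat.succ_eq_add_one, hrp] at this
      linarith
    have hgap : (L - r) * L ^ B ≤ 1 := by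
      have h1 : r ^ (B + 1) ≤ r * L ^ B := by
        rw [pow_succ, mul_comm]
        exact mul_le_mul_of_nonneg_left (pow_le_pow_left₀ (by linarith) hrL B) (by linarith)
      have h2 : L ^ (B + 1) = L * L ^ B := by rw [pow_succ, mul_comm]
      nlinarith
    have hgap2 : L - r ≤ 1 / L ^ B := by
      rw [le_div_iff₀ hLB]
      exact hgap
    have hLB1 : 1 ≤ L ^ B := one_le_pow₀ hL1
    have h2r : L ≤ 2 * r := by
      have : 1 / L ^ B ≤ 1 := by
        rw [div_le_one hLB]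
        exact hLB1
      linarith
    have hNk : (N : ℝ) - NN B k ≤ N / L ^ B + 1 := by
      have h1 := lt_NN B k
      have h2 : Real.exp r = N * Real.exp (-(L - r)) := by
        rw [← hexpL, ← Real.exp_add]
        congr 1
        ring
      have h3 := Real.add_one_le_exp (-(L - r))
      have h4 : (N : ℝ) * (1 - 1 / L ^ B) ≤ Real.exp r := by
        rw [h2]
        refine mul_le_mul_of_nonneg_left ?_ (by linarith)
        linarith
      have h5 : (N : ℝ) * (1 - 1 / L ^ B) = N - N / L ^ B := by ring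
      rw [h5] at h4
      linarith
    have hNkN : NN B k ≤ N := by
      have h1 : (NN B k : ℝ) ≤ N := by
        rw [← hexpL]
        exact (NN_le B k).trans (Real.exp_le_exp.2 hrL)
      exact_mod_cast h1
    have hone : 1 ≤ (B.factorial : ℝ) * (N / L ^ B) := by
      have h1 := Real.pow_div_factorial_le_exp L hL0.le B
      rw [hexpL] at h1
      rw [← mul_div_assoc, le_div_iff₀ hLB, one_mul]
      rwa [div_le_iff₀ (by positivity), mul_comm] at h1
    -- split
    have hsplit : ∑ n ∈ Finset.Icc 1 N, W n =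
        ∑ n ∈ Finset.Icc 1 (NN B k), W n + ∑ n ∈ Finset.Ioc (NN B k) N, W n := by
      rw [← Finset.sum_union]
      · congr 1
        ext n
        simp only [Finset.mem_union, Finset.mem_Icc, Finset.mem_Ioc]
        omega
      · rw [Finset.disjoint_left]
        intro n h1 h2
        simp only [Finset.mem_Icc, Finset.mem_Ioc] at h1 h2
        omega
    have hpart2 : ‖(∑ n ∈ Finset.Ioc (NN B k) N, W n) * e‖ ≤ M * (N / L ^ B + 1) := by
      refine (triv _).trans ?_
      rw [Nat.card_Ioc]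
      refine mul_le_mul_of_nonneg_left ?_ hM0
      rw [Nat.cast_sub hNkN]
      exact hNk
    have hpart1 : ‖(∑ n ∈ Finset.Icc 1 (NN B k), W n) * e‖ ≤ 2 * 2 ^ B / a * (N / L ^ B) := by
      have h1 := h k
      set Z := ‖(∑ n ∈ Finset.Icc 1 (NN B k), W n) * e‖ with hZ
      have hw := ww_pos B k
      have h2 : Z ≤ 2 / (a * ww B k) := by
        rw [le_div_iff₀ (by positivity)]
        linarith
      refine h2.trans ?_
      have h3 : 2 / (a * ww B k) = 2 / a * (Real.exp r / r ^ B) := by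
        unfold ww
        rw [← hr]
        have : Real.exp r ≠ 0 := (Real.exp_pos _).ne'
        have : r ≠ 0 := by linarith
        field_simp
      have h4 : 2 * 2 ^ B / a * (N / L ^ B) = 2 / a * (N * 2 ^ B / L ^ B) := by
        field_simp
      rw [h3, h4]
      refine mul_le_mul_of_nonneg_left ?_ (by positivity)
      rw [div_le_div_iff₀ (by positivity) hLB]
      have h5 : L ^ B ≤ 2 ^ B * r ^ B := by
        rw [← mul_pow]
        exact pow_le_pow_left₀ hL0.le h2r B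
      have h6 : Real.exp r ≤ N := by
        rw [← hexpL]
        exact Real.exp_le_exp.2 hrL
      calc Real.exp r * L ^ B ≤ N * (2 ^ B * r ^ B) :=
            mul_le_mul h6 h5 (by positivity) (by positivity)
        _ = N * 2 ^ B * r ^ B := by ring
    rw [hsplit, add_mul]
    refine (norm_add_le _ _).trans ?_
    refine (add_le_add hpart1 hpart2).trans ?_
    have h7 : M * 1 ≤ M * (B.factorial * (N / L ^ B)) := mul_le_mul_of_nonneg_left hone hM0
    nlinarith

/-- a selfadjoint idempotent has norm at most one -/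
theorem norm_proj_le (e : H →L[ℂ] H) (h1 : IsSelfAdjoint e) (h2 : e * e = e) : ‖e‖ ≤ 1 := by
  have h := CStarRing.norm_star_mul_self (x := e)
  rw [h1.star_eq, h2] at h
  by_cases h0 : ‖e‖ = 0
  · rw [h0]; exact zero_le_one
  · have : ‖e‖ * (‖e‖ - 1) = 0 := by linarith
    rcases mul_eq_zero.1 this with h3 | h3
    · exact absurd h3 h0
    · linarith

/-- the core statement -/
theorem core {ι : Type*} (W : ℕ → ℕ → H →L[ℂ] H) (M : ℕ → ℝ) (hM : ∀ j n, ‖W j n‖ ≤ M j)
    (ξ : ι → H) (D : ℕ → ℕ → ℝ)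
    (hD : ∀ j U N : ℕ, 2 ≤ N → sq ξ (∑ n ∈ Finset.Icc 1 N, W j n) ≤
      ENNReal.ofReal ((D j U * (N / Real.log N ^ U)) ^ 2))
    (ε : ℝ) (hε : 0 < ε) :
    ∃ e : H →L[ℂ] H, IsSelfAdjoint e ∧ e * e = e ∧
      (∀ X : H →L[ℂ] H, (∀ j n, X * W j n = W j n * X) →
        (∀ j n, X * ContinuousLinearMap.adjoint (W j n) =
          ContinuousLinearMap.adjoint (W j n) * X) → X * e = e * X) ∧
      sq ξ (1 - e) ≤ ENNReal.ofReal ε ∧
      ∀ j B : ℕ, ∃ C : ℝ, ∀ N : ℕ, 2 ≤ N →
        ‖(∑ n ∈ Finset.Icc 1 N, W j n) * e‖ ≤ C * (N / Real.log N ^ B) := by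
  -- the constants
  let z : ℕ → ℝ := fun k => (1 / ((k : ℝ) + 1)) ^ 2
  have hz : Summable z := by
    have h := (Real.summable_one_div_nat_pow (p := 2)).2 (by norm_num)
    have h2 := (summable_nat_add_iff 1).2 h
    refine h2.congr fun k => ?_
    simp only [z, Nat.cast_add, Nat.cast_one, one_div, inv_pow]
  have hz0 : ∀ k, 0 ≤ z k := fun k => by positivity
  have hZ : 0 < ∑' k, z k := hz.tsum_pos hz0 0 (by simp [z])
  let c : ℕ → ℝ := fun p => ε / (4 * ∑' k, z k) * (1 / 2) ^ p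
  have hc0 : ∀ p, 0 < c p := fun p => by
    have h1 : 0 < ε / (4 * ∑' k, z k) := by positivity
    have h2 : (0 : ℝ) < (1 / 2) ^ p := by positivity
    exact mul_pos h1 h2
  have hcs : HasSum c (ε / (4 * ∑' k, z k) * 2) := hasSum_geometric_two.mul_left _
  let j' : ℕ → ℕ := fun p => (Nat.unpair p).1
  let B' : ℕ → ℕ := fun p => (Nat.unpair p).2
  let q : ℕ → ℝ := fun p => |D (j' p) (2 * B' p + 1)| * 4 ^ (2 * B' p + 1)
  have hq0 : ∀ p, 0 ≤ q p := fun p => by positivity
  let a : ℕ → ℝ := fun p => Real.sqrt (c p) / (q p + 1)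
  have ha0 : ∀ p, 0 < a p := fun p =>
    div_pos (Real.sqrt_pos.2 (hc0 p)) (by linarith [hq0 p])
  have haq : ∀ p, (a p * q p) ^ 2 ≤ c p := by
    intro p
    have h1 : a p * q p ≤ Real.sqrt (c p) := by
      have h2 : q p / (q p + 1) ≤ 1 := by
        rw [div_le_one (by linarith [hq0 p])]
        linarith
      calc a p * q p = Real.sqrt (c p) * (q p / (q p + 1)) := by
            simp only [a]; ring
        _ ≤ Real.sqrt (c p) * 1 := mul_le_mul_of_nonneg_left h2 (Real.sqrt_nonneg _)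
        _ = Real.sqrt (c p) := mul_one _
    calc (a p * q p) ^ 2 ≤ Real.sqrt (c p) ^ 2 :=
          pow_le_pow_left₀ (mul_nonneg (ha0 p).le (hq0 p)) h1 2
      _ = c p := Real.sq_sqrt (hc0 p).le
  let S : ℕ → ℕ → H →L[ℂ] H := fun j N => ∑ n ∈ Finset.Icc 1 N, W j n
  let T2 : ℕ × ℕ → H →L[ℂ] H := fun x =>
    ((a x.1 * ww (B' x.1) x.2 : ℝ) : ℂ) • S (j' x.1) (NN (B' x.1) x.2)
  have hT2 : ∀ x, sq ξ (T2 x) ≤ ENNReal.ofReal (c x.1 * z x.2) := by
    intro x
    have h1 := grid_num (B' x.1) x.2 (D (j' x.1) (2 * B' x.1 + 1))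
    have h2 := hD (j' x.1) (2 * B' x.1 + 1) (NN (B' x.1) x.2) (two_le_NN _ _)
    have hw := ww_pos (B' x.1) x.2
    have ha := ha0 x.1
    set Q := D (j' x.1) (2 * B' x.1 + 1) *
      (NN (B' x.1) x.2 / Real.log (NN (B' x.1) x.2) ^ (2 * B' x.1 + 1)) with hQ
    have h3 : sq ξ (T2 x) ≤ ENNReal.ofReal ((a x.1 * ww (B' x.1) x.2) ^ 2) *
        ENNReal.ofReal (Q ^ 2) := by
      simp only [T2]
      rw [sq_smul, Complex.norm_real, Real.norm_eq_abs, sq_abs]
      exact mul_le_mul_right h2 _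
    refine h3.trans ?_
    rw [← ENNReal.ofReal_mul (by positivity)]
    apply ENNReal.ofReal_le_ofReal
    have h4 : a x.1 * (ww (B' x.1) x.2 * |Q|) ≤ a x.1 * (q x.1 * (1 / ((x.2 : ℝ) + 1))) :=
      mul_le_mul_of_nonneg_left h1 ha.le
    have h5 : |Q| ^ 2 = Q ^ 2 := sq_abs Q
    calc (a x.1 * ww (B' x.1) x.2) ^ 2 * Q ^ 2 = (a x.1 * ww (B' x.1) x.2) ^ 2 * |Q| ^ 2 := by
          rw [h5]
      _ = (a x.1 * (ww (B' x.1) x.2 * |Q|)) ^ 2 := by ring
      _ ≤ (a x.1 * (q x.1 * (1 / ((x.2 : ℝ) + 1)))) ^ 2 :=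
          pow_le_pow_left₀ (by positivity) h4 2
      _ = (a x.1 * q x.1) ^ 2 * z x.2 := by simp only [z]; ring
      _ ≤ c x.1 * z x.2 := mul_le_mul_of_nonneg_right (haq _) (hz0 _)
  have hcz : Summable fun x : ℕ × ℕ => c x.1 * z x.2 :=
    hcs.summable.mul_of_nonneg hz (fun p => (hc0 p).le) hz0
  have hczt : ∑' x : ℕ × ℕ, c x.1 * z x.2 = ε / 2 := by
    rw [← hcs.summable.tsum_mul_tsum hz hcz, hcs.tsum_eq]
    field_simp
    ring
  let T : ℕ → H →L[ℂ] H := fun m => T2 (Nat.unpair m)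
  have hTsum : ∑' m, sq ξ (T m) ≤ ENNReal.ofReal (ε / 2) := by
    have h1 : ∑' m, sq ξ (T m) = ∑' x : ℕ × ℕ, sq ξ (T2 x) :=
      Nat.pairEquiv.symm.tsum_eq (fun x : ℕ × ℕ => sq ξ (T2 x))
    rw [h1, ← hczt, ENNReal.ofReal_tsum_of_nonneg
      (fun x => mul_nonneg (hc0 _).le (hz0 _)) hcz]
    exact ENNReal.tsum_le_tsum hT2
  have hcomm : ∑' m, sq ξ (T m) = ∑' i, ∑' m, ENNReal.ofReal (‖T m (ξ i)‖ ^ 2) := by
    unfold sq
    exact ENNReal.tsum_comm
  obtain ⟨e, he1, he2, he3, he4, he5⟩ := opl T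
  have henorm : ‖e‖ ≤ 1 := norm_proj_le e he1 he2
  refine ⟨e, he1, he2, ?_, ?_, ?_⟩
  · intro X hX1 hX2
    have hS1 : ∀ j N, X * S j N = S j N * X := by
      intro j N
      simp only [S, Finset.mul_sum, Finset.sum_mul, hX1]
    have hS2 : ∀ j N, X * ContinuousLinearMap.adjoint (S j N) =
        ContinuousLinearMap.adjoint (S j N) * X := by
      intro j N
      simp only [S, map_sum, Finset.mul_sum, Finset.sum_mul, hX2]
    apply he3 X
    · intro m
      simp only [T, T2]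
      rw [mul_smul_comm, smul_mul_assoc, hS1]
    · intro m
      simp only [T, T2]
      rw [map_smulₛₗ, mul_smul_comm, smul_mul_assoc, hS2]
  · have hfin : ∀ i, ∑' m, ENNReal.ofReal (‖T m (ξ i)‖ ^ 2) ≠ ⊤ := by
      intro i
      have h1 : ∑' m, ENNReal.ofReal (‖T m (ξ i)‖ ^ 2) ≤ ENNReal.ofReal (ε / 2) := by
        refine le_trans ?_ hTsum
        rw [hcomm]
        exact ENNReal.le_tsum i
      exact ne_top_of_le_ne_top ENNReal.ofReal_ne_top h1
    have hsum : ∀ i, Summable fun m => ‖T m (ξ i)‖ ^ 2 := by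
      intro i
      have h := ENNReal.summable_toReal (hfin i)
      refine h.congr fun m => ?_
      exact ENNReal.toReal_ofReal (by positivity)
    have hi : ∀ i, ENNReal.ofReal (‖(1 - e) (ξ i)‖ ^ 2) ≤
        2 * ∑' m, ENNReal.ofReal (‖T m (ξ i)‖ ^ 2) := by
      intro i
      have h1 := he4 (ξ i) (hsum i)
      have h2 : (1 - e) (ξ i) = ξ i - e (ξ i) := rfl
      rw [h2, ← ENNReal.ofReal_tsum_of_nonneg (fun m => by positivity) (hsum i)]
      refine (ENNReal.ofReal_le_ofReal h1).trans (le_of_eq ?_)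
      rw [ENNReal.ofReal_mul (by norm_num)]
      norm_num
    calc sq ξ (1 - e) = ∑' i, ENNReal.ofReal (‖(1 - e) (ξ i)‖ ^ 2) := rfl
      _ ≤ ∑' i, 2 * ∑' m, ENNReal.ofReal (‖T m (ξ i)‖ ^ 2) := ENNReal.tsum_le_tsum hi
      _ = 2 * ∑' m, sq ξ (T m) := by rw [ENNReal.tsum_mul_left, hcomm]
      _ ≤ 2 * ENNReal.ofReal (ε / 2) := mul_le_mul_right hTsum _
      _ = ENNReal.ofReal ε := by
        have h3 : (2 : ENNReal) = ENNReal.ofReal 2 := by norm_num
        rw [h3, ← ENNReal.ofReal_mul (by norm_num)]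
        congr 1
        ring
  · intro j B
    refine grid_interp (W j) (M j) (hM j) e henorm B (a (Nat.pair j B)) (ha0 _) fun k => ?_
    have h1 := he5 (Nat.pair (Nat.pair j B) k)
    have h2 : T (Nat.pair (Nat.pair j B) k) =
        ((a (Nat.pair j B) * ww B k : ℝ) : ℂ) • S j (NN B k) := by
      simp only [T, T2, j', B', Nat.unpair_pair]
    have h3 : a (Nat.pair j B) * ww B k * ‖S j (NN B k) * e‖ =
        ‖T (Nat.pair (Nat.pair j B) k) * e‖ := by
      rw [h2, smul_mul_assoc, norm_smul, Complex.norm_real, Real.norm_eq_abs,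
        abs_of_pos (mul_pos (ha0 _) (ww_pos _ _))]
    change a (Nat.pair j B) * ww B k * ‖S j (NN B k) * e‖ ≤ 2
    rw [h3]
    refine ContinuousLinearMap.opNorm_le_bound _ (by norm_num) fun v => ?_
    have h4 : ‖T (Nat.pair (Nat.pair j B) k) (e v)‖ ^ 2 ≤ (2 * ‖v‖) ^ 2 := by
      have := h1 v
      nlinarith [sq_nonneg ‖v‖]
    exact (abs_le_of_sq_le_sq' h4 (by positivity)).2

end Pool.Agent.H50.AU
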