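import Mathlib

/-! The projection cutting down countably many operators which are square summable at one vector. -/

set_option autoImplicit false
set_option linter.unusedSectionVars false

namespace Pool.Agent.H50.AU

open scoped InnerProductSpace ComplexInnerProductSpace

/-- a projection onto a reducing subspace commutes with the map -/
theorem proj_comm {K : Type*} [NormedAddCommGroup K] [InnerProductSpace ℂ K]
    (U : Submodule ℂ K) [U.HasOrthogonalProjection] (X Y : K → K)
    (hs : ∀ a b, X (a - b) = X a - X b)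
    (hXY : ∀ a b, ⟪X a, b⟫_ℂ = ⟪a, Y b⟫_ℂ)
    (hX : ∀ x ∈ U, X x ∈ U) (hY : ∀ x ∈ U, Y x ∈ U) (x : K) :
    U.starProjection (X x) = X (U.starProjection x) := by
  apply Submodule.eq_starProjection_of_mem_of_inner_eq_zero
  · exact hX _ (U.starProjection_apply_mem x)
  · intro w hw
    rw [← hs, hXY]
    exact U.starProjection_inner_eq_zero x _ (hY w hw)

variable {H : Type*} [NormedAddCommGroup H] [InnerProductSpace ℂ H] [CompleteSpace H]

/-- the amplified Hilbert space -/
abbrev KK (H : Type*) [NormedAddCommGroup H] : Type _ := lp (fun _ : ℕ => H) 2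

theorem norm_sq_KK (f : KK H) : HasSum (fun k => ‖f k‖ ^ 2) (‖f‖ ^ 2) := by
  have h := lp.hasSum_norm (E := fun _ : ℕ => H) (p := 2) (by norm_num) f
  simpa using h

theorem mem_of_summable (f : ℕ → H) (hf : Summable fun k => ‖f k‖ ^ 2) :
    Memℓp (E := fun _ : ℕ => H) f 2 := by
  apply memℓp_gen
  simpa using hf

/-- coordinatewise action of a bounded operator -/
noncomputable def amp (X : H →L[ℂ] H) (f : KK H) : KK H :=
  ⟨fun k => X (f k), mem_of_summable _ (by
    refine Summable.of_nonneg_of_le (fun k => by positivity) (fun k => ?_)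
      ((norm_sq_KK f).summable.mul_left (‖X‖ ^ 2))
    have h := X.le_opNorm (f k)
    calc ‖X (f k)‖ ^ 2 ≤ (‖X‖ * ‖f k‖) ^ 2 := pow_le_pow_left₀ (norm_nonneg _) h 2
      _ = ‖X‖ ^ 2 * ‖f k‖ ^ 2 := by ring)⟩

@[simp] theorem amp_apply (X : H →L[ℂ] H) (f : KK H) (k : ℕ) : amp X f k = X (f k) := rfl

theorem amp_inner (X : H →L[ℂ] H) (f g : KK H) :
    ⟪amp X f, g⟫_ℂ = ⟪f, amp (ContinuousLinearMap.adjoint X) g⟫_ℂ := by
  rw [lp.inner_eq_tsum, lp.inner_eq_tsum]
  congr 1
  funext k
  rw [amp_apply, amp_apply, ContinuousLinearMap.adjoint_inner_right]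

/-- the graph of the family -/
noncomputable def graph (T : ℕ → H →L[ℂ] H) : Submodule ℂ (KK H) where
  carrier := {f | ∀ k, f (k + 1) = T k (f 0)}
  add_mem' := by
    intro f g hf hg k
    have h1 := hf k
    have h2 := hg k
    simp only [lp.coeFn_add, Pi.add_apply, map_add, h1, h2]
  zero_mem' := by
    intro k
    simp
  smul_mem' := by
    intro c f hf k
    have h1 := hf k
    simp only [lp.coeFn_smul, Pi.smul_apply, map_smul, h1]

theorem mem_graph (T : ℕ → H →L[ℂ] H) (f : KK H) :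
    f ∈ graph T ↔ ∀ k, f (k + 1) = T k (f 0) := Iff.rfl

theorem isClosed_graph (T : ℕ → H →L[ℂ] H) : IsClosed (graph T : Set (KK H)) := by
  have h : (graph T : Set (KK H)) = ⋂ k, {f : KK H | f (k + 1) = T k (f 0)} := by
    ext f
    simp [mem_graph]
  rw [h]
  refine isClosed_iInter fun k => ?_
  have c1 : Continuous fun f : KK H => f (k + 1) :=
    (lp.evalCLM ℂ (fun _ : ℕ => H) 2 (k + 1)).continuous
  have c2 : Continuous fun f : KK H => f 0 :=
    (lp.evalCLM ℂ (fun _ : ℕ => H) 2 0).continuous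
  exact isClosed_eq c1 ((T k).continuous.comp c2)

instance hasProj (T : ℕ → H →L[ℂ] H) : (graph T).HasOrthogonalProjection := by
  have : CompleteSpace (graph T) := (isClosed_graph T).completeSpace_coe
  infer_instance

/-- the base embedding -/
noncomputable def io : H →L[ℂ] KK H := lp.singleContinuousLinearMap ℂ (fun _ : ℕ => H) 2 0

theorem io_zero (x : H) : (io x : KK H) 0 = x := by
  simp [io]

theorem io_succ (x : H) (k : ℕ) : (io x : KK H) (k + 1) = 0 := by
  simp [io]

theorem inner_io_right (f : KK H) (x : H) : ⟪f, (io x : KK H)⟫_ℂ = ⟪f 0, x⟫_ℂ := by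
  simp only [io, lp.singleContinuousLinearMap_apply]
  exact lp.inner_single_right (𝕜 := ℂ) (G := fun _ : ℕ => H) 0 x f

theorem inner_io_left (f : KK H) (x : H) : ⟪(io x : KK H), f⟫_ℂ = ⟪x, f 0⟫_ℂ := by
  simp only [io, lp.singleContinuousLinearMap_apply]
  exact lp.inner_single_left (𝕜 := ℂ) (G := fun _ : ℕ => H) 0 x f

/-- the compression of the graph projection to the base copy: `(1 + T*T)⁻¹` -/
noncomputable def RR (T : ℕ → H →L[ℂ] H) : H →L[ℂ] H :=
  (lp.evalCLM ℂ (fun _ : ℕ => H) 2 0).comp ((graph T).starProjection.comp io)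

theorem RR_apply (T : ℕ → H →L[ℂ] H) (x : H) :
    RR T x = ((graph T).starProjection (io x)) 0 := rfl

theorem RR_inner (T : ℕ → H →L[ℂ] H) (x y : H) : ⟪RR T x, y⟫_ℂ = ⟪x, RR T y⟫_ℂ := by
  rw [RR_apply, RR_apply, ← inner_io_right, ← inner_io_left,
    Submodule.inner_starProjection_left_eq_right]

theorem RR_self (T : ℕ → H →L[ℂ] H) : IsSelfAdjoint (RR T) := by
  rw [ContinuousLinearMap.isSelfAdjoint_iff_isSymmetric]
  intro x y
  exact RR_inner T x y

theorem RR_re (T : ℕ → H →L[ℂ] H) (x : H) :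
    (⟪RR T x, x⟫_ℂ).re = ‖(graph T).starProjection (io x)‖ ^ 2 := by
  rw [RR_apply, ← inner_io_right]
  have h := (graph T).re_inner_starProjection_eq_normSq (io x)
  rw [Submodule.starProjection_apply] at *
  simpa using h

theorem RR_sum (T : ℕ → H →L[ℂ] H) (x : H) :
    HasSum (fun k => ‖T k (RR T x)‖ ^ 2) ((⟪RR T x, x⟫_ℂ).re - ‖RR T x‖ ^ 2) := by
  rw [RR_re]
  have h := norm_sq_KK ((graph T).starProjection (io x))
  have h2 := (hasSum_nat_add_iff' 1).2 h
  simp only [Finset.range_one, Finset.sum_singleton] at h2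
  have h3 : ∀ k, ((graph T).starProjection (io x)) (k + 1) = T k (RR T x) := fun k =>
    (mem_graph T _).1 ((graph T).starProjection_apply_mem (io x)) k
  simp only [h3] at h2
  exact h2

theorem RR_le (T : ℕ → H →L[ℂ] H) (x : H) (k : ℕ) :
    ‖T k (RR T x)‖ ^ 2 ≤ (⟪RR T x, x⟫_ℂ).re := by
  have h := le_hasSum (RR_sum T x) k (fun j _ => by positivity)
  have h2 : 0 ≤ ‖RR T x‖ ^ 2 := by positivity
  linarith

theorem RR_sq_le (T : ℕ → H →L[ℂ] H) (x : H) : ‖RR T x‖ ^ 2 ≤ (⟪RR T x, x⟫_ℂ).re := by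
  have h := (RR_sum T x).nonneg (fun j => by positivity)
  linarith

theorem RR_one_sub (T : ℕ → H →L[ℂ] H) (x : H) :
    0 ≤ ‖x‖ ^ 2 - (⟪RR T x, x⟫_ℂ).re := by
  have h1 := RR_sq_le T x
  have h2 : (⟪RR T x, x⟫_ℂ).re ≤ ‖RR T x‖ * ‖x‖ := by
    refine (Complex.re_le_norm _).trans (norm_inner_le_norm _ _)
  nlinarith [sq_nonneg (‖RR T x‖ - ‖x‖), norm_nonneg (RR T x), norm_nonneg x]

theorem RR_dist (T : ℕ → H →L[ℂ] H) (x : H) (hs : Summable fun k => ‖T k x‖ ^ 2) :
    ‖x‖ ^ 2 - (⟪RR T x, x⟫_ℂ).re ≤ ∑' k, ‖T k x‖ ^ 2 := by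
  -- the graph point over `x`
  let g : ℕ → H := fun k => Nat.casesOn k x (fun j => T j x)
  have hg : Summable fun k => ‖g k‖ ^ 2 := by
    rw [← summable_nat_add_iff 1]
    exact hs
  let γ : KK H := ⟨g, mem_of_summable g hg⟩
  have hγ : γ ∈ graph T := fun k => rfl
  have h1 : ‖(io x : KK H) - (graph T).starProjection (io x)‖ ≤ ‖(io x : KK H) - γ‖ := by
    rw [Submodule.starProjection_minimal]
    exact ciInf_le ⟨0, by rintro _ ⟨y, rfl⟩; exact norm_nonneg _⟩ (⟨γ, hγ⟩ : graph T)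
  have h2 : ‖(io x : KK H)‖ ^ 2 = ‖(graph T).starProjection (io x)‖ ^ 2 +
      ‖(io x : KK H) - (graph T).starProjection (io x)‖ ^ 2 := by
    have h := (graph T).norm_sq_eq_add_norm_sq_starProjection (io x)
    rw [Submodule.starProjection_orthogonal_val] at h
    exact h
  have h3 : ‖(io x : KK H)‖ = ‖x‖ := by
    simp only [io, lp.singleContinuousLinearMap_apply]
    exact lp.norm_single (E := fun _ : ℕ => H) (p := 2) (by norm_num) 0 x
  have h4 : ‖(io x : KK H) - γ‖ ^ 2 = ∑' k, ‖T k x‖ ^ 2 := by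
    have h := norm_sq_KK ((io x : KK H) - γ)
    have h5 := (hasSum_nat_add_iff' 1).2 h
    have h6 : ((io x : KK H) - γ) 0 = 0 := by
      rw [lp.coeFn_sub, Pi.sub_apply, io_zero]
      exact sub_self x
    have h7 : ∀ k, ((io x : KK H) - γ) (k + 1) = - T k x := by
      intro k
      rw [lp.coeFn_sub, Pi.sub_apply, io_succ]
      exact zero_sub _
    simp only [Finset.range_one, Finset.sum_singleton, h6, h7, norm_neg, norm_zero] at h5
    have h8 := h5.tsum_eq
    rw [h8]
    ring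
  rw [RR_re, ← h4, ← h3, h2]
  have h9 := pow_le_pow_left₀ (norm_nonneg _) h1 2
  linarith

theorem RR_comm (T : ℕ → H →L[ℂ] H) (X : H →L[ℂ] H) (h1 : ∀ k, X * T k = T k * X)
    (h2 : ∀ k, X * ContinuousLinearMap.adjoint (T k) = ContinuousLinearMap.adjoint (T k) * X) :
    X * RR T = RR T * X := by
  ext x
  have e1 : ∀ k y, X (T k y) = T k (X y) := fun k y => by
    have h := congrArg (fun Z : H →L[ℂ] H => Z y) (h1 k)
    exact h
  have e2 : ∀ k y, (ContinuousLinearMap.adjoint X) (T k y) =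
      T k ((ContinuousLinearMap.adjoint X) y) := fun k y => by
    have h := congrArg (fun Z : H →L[ℂ] H => (ContinuousLinearMap.adjoint Z) y) (h2 k)
    simp only [ContinuousLinearMap.mul_def, ContinuousLinearMap.adjoint_comp,
      ContinuousLinearMap.adjoint_adjoint] at h
    exact h.symm
  have hp := proj_comm (graph T) (amp X) (amp (ContinuousLinearMap.adjoint X))
    (fun a b => by
      ext k
      simp only [amp_apply, lp.coeFn_sub, Pi.sub_apply, map_sub])
    (amp_inner X)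
    (fun f hf k => by rw [amp_apply, amp_apply, (mem_graph T f).1 hf k, e1])
    (fun f hf k => by rw [amp_apply, amp_apply, (mem_graph T f).1 hf k, e2]) (io x)
  have h3 : amp X (io x : KK H) = io (X x) := by
    ext k
    rw [amp_apply]
    rcases k with _ | k
    · rw [io_zero, io_zero]
    · rw [io_succ, io_succ, map_zero]
  rw [h3] at hp
  have h4 := congrArg (fun f : KK H => f 0) hp
  simp only [amp_apply] at h4
  exact h4.symm

/-- the three spectral functions -/
noncomputable def fF (x : ℝ) : ℝ := max (1 / 2 - x) 0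
noncomputable def fP (x : ℝ) : ℝ := max (x - 1 / 2) 0
noncomputable def fG (x : ℝ) : ℝ := (max x (1 / 2))⁻¹

theorem fF_cont : Continuous fF := by unfold fF; fun_prop
theorem fP_cont : Continuous fP := by unfold fP; fun_prop
theorem fG_cont : Continuous fG := by
  unfold fG
  refine Continuous.inv₀ (by fun_prop) fun x => ?_
  have : (1 / 2 : ℝ) ≤ max x (1 / 2) := le_max_right _ _
  linarith

theorem spectral (R : H →L[ℂ] H) (hR : IsSelfAdjoint R) :
    R * cfc fG R = 1 - (2 : ℝ) • cfc fF R ∧ ((1 / 2 : ℝ) • (1 : H →L[ℂ] H)) - R = cfc fF R - cfc fP R ∧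
      cfc fF R * cfc fP R = 0 ∧ ‖cfc fG R‖ ≤ 2 ∧ 0 ≤ cfc fF R := by
  have cF : ContinuousOn fF (spectrum ℝ R) := fF_cont.continuousOn
  have cP : ContinuousOn fP (spectrum ℝ R) := fP_cont.continuousOn
  have cG : ContinuousOn fG (spectrum ℝ R) := fG_cont.continuousOn
  have cI : ContinuousOn (fun x : ℝ => x) (spectrum ℝ R) := continuousOn_id
  refine ⟨?_, ?_, ?_, ?_, ?_⟩
  · have e1 : R * cfc fG R = cfc (fun x : ℝ => x * fG x) R := by
      rw [cfc_mul (fun x : ℝ => x) fG R cI cG, cfc_id' ℝ R]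
    have e2 : (1 : H →L[ℂ] H) - (2 : ℝ) • cfc fF R = cfc (fun x : ℝ => 1 - 2 * fF x) R := by
      have e3 : cfc (fun x : ℝ => (2 : ℝ) * fF x) R = (2 : ℝ) • cfc fF R := by
        rw [← cfc_const_mul (2 : ℝ) fF R cF]
      rw [cfc_sub (fun _ : ℝ => (1 : ℝ)) (fun x : ℝ => 2 * fF x) R continuousOn_const
        (continuousOn_const.mul cF), e3, cfc_const_one ℝ R]
    rw [e1, e2]
    congr 1
    funext x
    unfold fG fF
    rcases le_total x (1 / 2) with h | h
    · rw [max_eq_right h, max_eq_left (by linarith)]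
      ring
    · rw [max_eq_left h, max_eq_right (by linarith)]
      have : x ≠ 0 := by linarith
      field_simp
      ring
  · have e1 : ((1 / 2 : ℝ) • (1 : H →L[ℂ] H)) - R = cfc (fun x : ℝ => 1 / 2 - x) R := by
      rw [cfc_sub (fun _ : ℝ => (1 / 2 : ℝ)) (fun x : ℝ => x) R continuousOn_const cI,
        cfc_id' ℝ R, cfc_const (1 / 2 : ℝ) R, Algebra.algebraMap_eq_smul_one]
    rw [e1, ← cfc_sub fF fP R cF cP]
    congr 1
    funext x
    unfold fF fP
    rcases le_total x (1 / 2) with h | h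
    · rw [max_eq_left (by linarith), max_eq_right (by linarith)]
      ring
    · rw [max_eq_right (by linarith), max_eq_left (by linarith)]
      ring
  · rw [← cfc_mul fF fP R cF cP]
    have e : (fun x : ℝ => fF x * fP x) = fun _ => 0 := by
      funext x
      unfold fF fP
      rcases le_total x (1 / 2) with h | h
      · rw [max_eq_right (a := x - 1 / 2) (by linarith), mul_zero]
      · rw [max_eq_right (a := 1 / 2 - x) (by linarith), zero_mul]
    rw [e, cfc_const_zero ℝ R]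
  · refine norm_cfc_le (by norm_num) fun x _ => ?_
    have h : (1 / 2 : ℝ) ≤ max x (1 / 2) := le_max_right _ _
    unfold fG
    rw [norm_inv, Real.norm_eq_abs, abs_of_nonneg (by linarith)]
    calc (max x (1 / 2))⁻¹ ≤ (1 / 2 : ℝ)⁻¹ := inv_anti₀ (by norm_num) h
      _ = 2 := by norm_num
  · exact cfc_nonneg fun x _ => le_max_right _ _

/-- the operator lemma -/
theorem opl (T : ℕ → H →L[ℂ] H) :
    ∃ e : H →L[ℂ] H, IsSelfAdjoint e ∧ e * e = e ∧
      (∀ X : H →L[ℂ] H, (∀ k, X * T k = T k * X) →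
        (∀ k, X * ContinuousLinearMap.adjoint (T k) = ContinuousLinearMap.adjoint (T k) * X) →
        X * e = e * X) ∧
      (∀ Ω : H, (Summable fun k => ‖T k Ω‖ ^ 2) → ‖Ω - e Ω‖ ^ 2 ≤ 2 * ∑' k, ‖T k Ω‖ ^ 2) ∧
      ∀ k v, ‖T k (e v)‖ ^ 2 ≤ 2 * ‖v‖ ^ 2 := by
  obtain ⟨s1, s2, s3, s4, s5⟩ := spectral (RR T) (RR_self T)
  set R := RR T with hRdef
  set F := cfc fF R with hF
  set P := cfc fP R with hP
  set G := cfc fG R with hG
  have hFsa : ∀ a b, ⟪F a, b⟫_ℂ = ⟪a, F b⟫_ℂ := by
    have h : IsSelfAdjoint F := IsSelfAdjoint.cfc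
    rw [ContinuousLinearMap.isSelfAdjoint_iff_isSymmetric] at h
    exact fun a b => h a b
  let E : Submodule ℂ H := LinearMap.ker (F : H →ₗ[ℂ] H)
  have hEc : IsClosed (E : Set H) := ContinuousLinearMap.isClosed_ker F
  have : CompleteSpace E := hEc.completeSpace_coe
  have hEmem : ∀ v, v ∈ E ↔ F v = 0 := fun v => LinearMap.mem_ker
  let e : H →L[ℂ] H := E.starProjection
  have hXF : ∀ X : H →L[ℂ] H, X * R = R * X → ∀ v, F (X v) = X (F v) := by
    intro X hX v
    have h : Commute F X := Commute.cfc_real (show Commute R X from hX.symm) fF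
    exact congrArg (fun Z : H →L[ℂ] H => Z v) h.eq
  have hcomm : ∀ X : H →L[ℂ] H, X * R = R * X →
      ContinuousLinearMap.adjoint X * R = R * ContinuousLinearMap.adjoint X →
      ∀ v, e (X v) = X (e v) := by
    intro X h1 h2 v
    exact proj_comm E X (ContinuousLinearMap.adjoint X) (fun a b => map_sub X a b)
      (fun a b => (ContinuousLinearMap.adjoint_inner_right X a b).symm)
      (fun x hx => by
        rw [hEmem] at hx ⊢
        rw [hXF X h1, hx, map_zero])
      (fun x hx => by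
        rw [hEmem] at hx ⊢
        rw [hXF _ h2, hx, map_zero]) v
  have hRadj : ContinuousLinearMap.adjoint R = R := (RR_self T).adjoint_eq
  have heR : ∀ v, e (R v) = R (e v) := by
    apply hcomm R rfl
    rw [hRadj]
  refine ⟨e, ?_, ?_, ?_, ?_, ?_⟩
  · rw [ContinuousLinearMap.isSelfAdjoint_iff_isSymmetric]
    intro x y
    exact E.inner_starProjection_left_eq_right x y
  · exact E.isIdempotentElem_starProjection
  · intro X h1 h2
    have c1 := RR_comm T X h1 h2
    have c2 : ContinuousLinearMap.adjoint X * R = R * ContinuousLinearMap.adjoint X := by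
      have h := congrArg (fun Z : H →L[ℂ] H => ContinuousLinearMap.adjoint Z) c1
      simp only [ContinuousLinearMap.mul_def, ContinuousLinearMap.adjoint_comp] at h
      rw [← hRdef, hRadj] at h
      exact h.symm
    ext v
    exact (hcomm X c1 c2 v).symm
  · -- the mass estimate
    intro Ω hs
    set y := Ω - e Ω with hy
    have hyE : y ∈ Eᗮ := E.sub_starProjection_mem_orthogonal Ω
    have hPy : ⟪P y, y⟫_ℂ = 0 := by
      apply (Submodule.mem_orthogonal _ _).1 hyE
      rw [hEmem]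
      exact congrArg (fun Z : H →L[ℂ] H => Z y) s3
    have hFy : 0 ≤ (⟪F y, y⟫_ℂ).re := by
      have h := (ContinuousLinearMap.nonneg_iff_isPositive F).1 s5
      exact h.re_inner_nonneg_left y
    have h1 : (⟪R y, y⟫_ℂ).re ≤ 1 / 2 * ‖y‖ ^ 2 := by
      have h2 := congrArg (fun Z : H →L[ℂ] H => ⟪Z y, y⟫_ℂ) s2
      have h3 : ⟪(((1 / 2 : ℝ) • (1 : H →L[ℂ] H)) - R) y, y⟫_ℂ =
          (1 / 2 : ℝ) * ⟪y, y⟫_ℂ - ⟪R y, y⟫_ℂ := by
        change ⟪(1 / 2 : ℝ) • y - R y, y⟫_ℂ = _
        rw [inner_sub_left, ← Complex.coe_smul, inner_smul_left, Complex.conj_ofReal]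
      have h4 : ⟪(F - P) y, y⟫_ℂ = ⟪F y, y⟫_ℂ := by
        change ⟪F y - P y, y⟫_ℂ = _
        rw [inner_sub_left, hPy, sub_zero]
      rw [h3, h4] at h2
      have h5 := congrArg Complex.re h2
      rw [Complex.sub_re, Complex.re_ofReal_mul, inner_self_eq_norm_sq_to_K] at h5
      have h6 : (((‖y‖ : ℂ)) ^ 2).re = ‖y‖ ^ 2 := by
        rw [← Complex.ofReal_pow, Complex.ofReal_re]
      simp only [Complex.coe_algebraMap] at h5
      rw [h6] at h5
      linarith
    have hsplit : (⟪R Ω, Ω⟫_ℂ).re = (⟪R (e Ω), e Ω⟫_ℂ).re + (⟪R y, y⟫_ℂ).re := by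
      have hΩ : Ω = e Ω + y := by rw [hy]; abel
      have z1 : ⟪R (e Ω), y⟫_ℂ = 0 := by
        rw [← heR]
        exact (Submodule.mem_orthogonal _ _).1 hyE _ (E.starProjection_apply_mem _)
      have z2 : ⟪R y, e Ω⟫_ℂ = 0 := by
        rw [RR_inner, ← hRdef, ← heR]
        exact (Submodule.mem_orthogonal' _ _).1 hyE _ (E.starProjection_apply_mem _)
      conv_lhs => rw [hΩ]
      rw [map_add, inner_add_left, inner_add_right, inner_add_right, z1, z2, zero_add, add_zero,
        Complex.add_re]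
    have hnorm : ‖Ω‖ ^ 2 = ‖e Ω‖ ^ 2 + ‖y‖ ^ 2 := by
      have h := E.norm_sq_eq_add_norm_sq_starProjection Ω
      rw [Submodule.starProjection_orthogonal_val] at h
      exact h
    have k1 := RR_one_sub T (e Ω)
    have k2 := RR_dist T Ω hs
    rw [← hRdef] at k1 k2
    rw [hsplit, hnorm] at k2
    linarith
  · intro k v
    have hv : F (e v) = 0 := (hEmem _).1 (E.starProjection_apply_mem v)
    have h1 : R (G (e v)) = e v := by
      have h : R (G (e v)) = e v - (2 : ℝ) • F (e v) :=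
        congrArg (fun Z : H →L[ℂ] H => Z (e v)) s1
      rw [hv, smul_zero, sub_zero] at h
      exact h
    have h2 := RR_le T (G (e v)) k
    rw [← hRdef, h1] at h2
    have h3 : (⟪e v, G (e v)⟫_ℂ).re ≤ ‖e v‖ * ‖G (e v)‖ :=
      (Complex.re_le_norm _).trans (norm_inner_le_norm _ _)
    have h4 : ‖G (e v)‖ ≤ 2 * ‖e v‖ :=
      (G.le_opNorm _).trans (mul_le_mul_of_nonneg_right s4 (norm_nonneg _))
    have h5 : ‖e v‖ ≤ ‖v‖ := E.norm_starProjection_apply_le v
    have h6 : ‖e v‖ * ‖G (e v)‖ ≤ ‖v‖ * (2 * ‖v‖) :=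
      mul_le_mul h5 (h4.trans (by linarith)) (norm_nonneg _) (norm_nonneg _)
    nlinarith [h2, h3, h6]

end Pool.Agent.H50.AU
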