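import Pool.Agent.H398R3.NCM.PD
import Pool.Agent.TH327.Thin.Base

/-! Exponential sum bounds for orbits of contractions (von Neumann's inequality in the form needed). -/

set_option autoImplicit false
set_option linter.unusedSectionVars false

namespace Pool.Agent.H50.AU

open Finset
open scoped InnerProductSpace ComplexInnerProductSpace
open Pool.Agent.Helper188.NCM

variable {H : Type*} [NormedAddCommGroup H] [InnerProductSpace ℂ H]
variable {V : Type*} [AddCommGroup V] [Module ℂ V]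

/-- correlations -/
noncomputable def corr (J : V →ₗ[ℂ] H) (α : V →ₗ[ℂ] V) (x : V) (k : ℕ) : ℂ :=
  ⟪J x, J ((α ^ k) x)⟫_ℂ

/-- correlations, two sided -/
noncomputable def corrZ (J : V →ₗ[ℂ] H) (α : V →ₗ[ℂ] V) (x : V) (k : ℤ) : ℂ :=
  if 0 ≤ k then corr J α x k.toNat else star (corr J α x (-k).toNat)

theorem corrZ_of_le (J : V →ₗ[ℂ] H) (α : V →ₗ[ℂ] V) (x : V) {n m : ℕ} (h : m ≤ n) :
    corrZ J α x ((n : ℤ) - m) = corr J α x (n - m) := by
  unfold corrZ
  rw [if_pos (by omega)]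
  congr 1
  omega

theorem corrZ_of_lt (J : V →ₗ[ℂ] H) (α : V →ₗ[ℂ] V) (x : V) {n m : ℕ} (h : n < m) :
    corrZ J α x ((n : ℤ) - m) = star (corr J α x (m - n)) := by
  unfold corrZ
  rw [if_neg (by omega)]
  congr 2
  omega

/-- the tails -/
noncomputable def tail (α : V →ₗ[ℂ] V) (x : V) (c : ℕ → ℂ) (M m : ℕ) : V :=
  ∑ n ∈ Ico m M, c n • (α ^ (n - m)) x

theorem tail_step (α : V →ₗ[ℂ] V) (x : V) (c : ℕ → ℂ) {M m : ℕ} (h : m < M) :
    tail α x c M m = c m • x + α (tail α x c M (m + 1)) := by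
  unfold tail
  rw [Finset.sum_eq_sum_Ico_succ_bot h, map_sum]
  congr 1
  · simp
  · refine Finset.sum_congr rfl fun n hn => ?_
    rw [Finset.mem_Ico] at hn
    rw [map_smul]
    congr 1
    rw [show n - m = (n - (m + 1)) + 1 by omega, pow_succ']
    rfl

theorem head_inner (J : V →ₗ[ℂ] H) (α : V →ₗ[ℂ] V) (x : V) (c : ℕ → ℂ) (M m : ℕ) :
    ⟪J (c m • x), J (tail α x c M m)⟫_ℂ =
      ∑ n ∈ Ico m M, c n * star (c m) * corr J α x (n - m) := by
  unfold tail corr
  rw [map_sum, inner_sum]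
  refine Finset.sum_congr rfl fun n _ => ?_
  rw [map_smul, map_smul, inner_smul_left, inner_smul_right, starRingEnd_apply]
  ring

theorem head_inner' (J : V →ₗ[ℂ] H) (α : V →ₗ[ℂ] V) (x : V) (c : ℕ → ℂ) (M n : ℕ) :
    ⟪J (α (tail α x c M (n + 1))), J (c n • x)⟫_ℂ =
      ∑ m ∈ Ico (n + 1) M, c n * star (c m) * star (corr J α x (m - n)) := by
  unfold tail corr
  rw [map_sum, map_sum, sum_inner]
  refine Finset.sum_congr rfl fun m hm => ?_
  rw [Finset.mem_Ico] at hm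
  rw [map_smul, map_smul, map_smul, inner_smul_left, inner_smul_right, starRingEnd_apply]
  have e : α ((α ^ (m - (n + 1))) x) = (α ^ (m - n)) x := by
    rw [show m - n = (m - (n + 1)) + 1 by omega, pow_succ']
    rfl
  rw [e, ← starRingEnd_apply (⟪J x, J ((α ^ (m - n)) x)⟫_ℂ), inner_conj_symm]
  ring

theorem form_eq (J : V →ₗ[ℂ] H) (α : V →ₗ[ℂ] V) (x : V) (c : ℕ → ℂ) (M : ℕ) :
    ∑ n ∈ range M, ∑ m ∈ range M, c n * star (c m) * corrZ J α x ((n : ℤ) - m) =
      ((∑ m ∈ range M, (‖J (tail α x c M m)‖ ^ 2 - ‖J (α (tail α x c M (m + 1)))‖ ^ 2) : ℝ) :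
        ℂ) := by
  have h1 : ∑ n ∈ range M, ∑ m ∈ range M, c n * star (c m) * corrZ J α x ((n : ℤ) - m) =
      ∑ m ∈ range M, ∑ n ∈ Ico m M, c n * star (c m) * corr J α x (n - m) +
      ∑ n ∈ range M, ∑ m ∈ Ico (n + 1) M, c n * star (c m) * star (corr J α x (m - n)) := by
    have h2 : ∑ m ∈ range M, ∑ n ∈ Ico m M, c n * star (c m) * corr J α x (n - m) =
        ∑ n ∈ range M, ∑ m ∈ range (n + 1), c n * star (c m) * corr J α x (n - m) := by
      apply Finset.sum_comm'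
      intro m n
      simp only [mem_range, mem_Ico]
      omega
    rw [h2, ← Finset.sum_add_distrib]
    refine Finset.sum_congr rfl fun n hn => ?_
    rw [mem_range] at hn
    rw [← Finset.sum_range_add_sum_Ico _ (show n + 1 ≤ M by omega)]
    congr 1
    · refine Finset.sum_congr rfl fun m hm => ?_
      rw [mem_range] at hm
      rw [corrZ_of_le J α x (by omega)]
    · refine Finset.sum_congr rfl fun m hm => ?_
      rw [mem_Ico] at hm
      rw [corrZ_of_lt J α x (by omega)]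
  rw [h1, ← Finset.sum_add_distrib, Complex.ofReal_sum]
  refine Finset.sum_congr rfl fun m hm => ?_
  rw [mem_range] at hm
  rw [← head_inner, ← head_inner']
  have h3 : J (c m • x) = J (tail α x c M m) - J (α (tail α x c M (m + 1))) := by
    rw [tail_step α x c hm, map_add]
    abel
  rw [h3, inner_sub_left, inner_sub_right, inner_self_eq_norm_sq_to_K, inner_self_eq_norm_sq_to_K]
  push_cast
  simp only [Complex.coe_algebraMap]
  ring

theorem form_ge (J : V →ₗ[ℂ] H) (α : V →ₗ[ℂ] V) (hα : ∀ a, ‖J (α a)‖ ≤ ‖J a‖) (x : V)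
    (c : ℕ → ℂ) (M : ℕ) :
    ‖J (tail α x c M 0)‖ ^ 2 ≤
      ∑ m ∈ range M, (‖J (tail α x c M m)‖ ^ 2 - ‖J (α (tail α x c M (m + 1)))‖ ^ 2) := by
  have h1 : ∑ m ∈ range M, (‖J (tail α x c M m)‖ ^ 2 - ‖J (tail α x c M (m + 1))‖ ^ 2) ≤
      ∑ m ∈ range M, (‖J (tail α x c M m)‖ ^ 2 - ‖J (α (tail α x c M (m + 1)))‖ ^ 2) := by
    refine Finset.sum_le_sum fun m _ => ?_
    have := pow_le_pow_left₀ (norm_nonneg _) (hα (tail α x c M (m + 1))) 2
    linarith
  rw [Finset.sum_range_sub' (fun m => ‖J (tail α x c M m)‖ ^ 2)] at h1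
  have h2 : tail α x c M M = 0 := by
    unfold tail
    simp
  rw [h2, map_zero, norm_zero] at h1
  simpa using h1

/-- von Neumann's inequality for orbits -/
theorem vn (J : V →ₗ[ℂ] H) (α : V →ₗ[ℂ] V) (hα : ∀ a, ‖J (α a)‖ ≤ ‖J a‖) (x : V)
    (N : ℕ) (c : ℕ → ℂ) (C : ℝ) (hC : 0 ≤ C)
    (h : ∀ β : ℝ, ‖∑ n ∈ range N, c n * ee (β * n)‖ ≤ C) :
    ‖J (∑ n ∈ range N, c n • (α ^ n) x)‖ ≤ C * ‖J x‖ := by
  have hpd := Pool.Agent.H398R3.NCM.taskPD (corrZ J α x) (fun M y => by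
    rw [form_eq J α x y M]
    refine ⟨?_, Complex.ofReal_im _⟩
    rw [Complex.ofReal_re]
    exact (sq_nonneg _).trans (form_ge J α hα x y M)) N c C hC h
  rw [form_eq J α x c N, Complex.ofReal_re] at hpd
  have h1 := (form_ge J α hα x c N).trans hpd
  have h2 : tail α x c N 0 = ∑ n ∈ range N, c n • (α ^ n) x := by
    unfold tail
    rw [Finset.range_eq_Ico]
    rfl
  have h3 : (corrZ J α x 0).re = ‖J x‖ ^ 2 := by
    have := inner_self_eq_norm_sq (𝕜 := ℂ) (J x)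
    unfold corrZ corr
    simpa using this
  rw [h2, h3, ← mul_pow] at h1
  exact (abs_le_of_sq_le_sq' h1 (by positivity)).2

theorem sum_range_Icc {M : Type*} [AddCommMonoid M] (f : ℕ → M) (hf : f 0 = 0) (N : ℕ) :
    ∑ n ∈ range (N + 1), f n = ∑ n ∈ Icc 1 N, f n := by
  have hr : range (N + 1) = insert 0 (Icc 1 N) := by
    ext n
    simp only [mem_range, mem_insert, mem_Icc]
    omega
  rw [hr, Finset.sum_insert (by simp), hf, zero_add]

/-- the logarithmic saving -/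
theorem vn_mu : ∃ D : ℕ → ℝ, (∀ U, 0 ≤ D U) ∧ ∀ (J : V →ₗ[ℂ] H) (α : V →ₗ[ℂ] V),
    (∀ a, ‖J (α a)‖ ≤ ‖J a‖) → ∀ (x : V) (U N : ℕ), 2 ≤ N →
    ‖J (∑ n ∈ Icc 1 N, ((ArithmeticFunction.moebius n : ℤ) : ℂ) • (α ^ n) x)‖ ≤
      D U * (N / Real.log N ^ U) * ‖J x‖ := by
  obtain ⟨C₀, h0, h1⟩ := Pool.Agent.TH327.Thin.base
  refine ⟨C₀, h0, fun J α hα x U N hN => ?_⟩
  have h2 := vn J α hα x (N + 1) (fun n => ((ArithmeticFunction.moebius n : ℤ) : ℂ))
    (C₀ U * (N / Real.log N ^ U)) (by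
      have := h0 U
      have h3 : 0 ≤ Real.log N := Real.log_natCast_nonneg N
      positivity) (fun β => by
      rw [sum_range_Icc _ (by simp)]
      have h3 := h1 U N hN N le_rfl ((β : ℝ) : UnitAddCircle)
      refine le_trans (le_of_eq ?_) h3
      congr 1
      refine Finset.sum_congr rfl fun n _ => ?_
      congr 1
      rw [fourier_coe_apply]
      unfold ee
      congr 1
      push_cast
      ring)
  rw [sum_range_Icc _ (by simp)] at h2
  exact h2

end Pool.Agent.H50.AU
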