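import Pool.Agent.H50.AU.Core
import Pool.Agent.H50.AU.VN

/-! The logarithmic saving in the square seminorm of a weight. -/

set_option autoImplicit false
set_option linter.unusedSectionVars false

namespace Pool.Agent.H50.AU

open Finset
open scoped InnerProductSpace ComplexInnerProductSpace

variable {H : Type*} [NormedAddCommGroup H] [InnerProductSpace ℂ H] [CompleteSpace H]
variable {A : Type*} [AddCommGroup A] [Module ℂ A] {ι : Type*}

theorem sq_add_le (ξ : ι → H) (x y : H →L[ℂ] H) : sq ξ (x + y) ≤ 2 * sq ξ x + 2 * sq ξ y := by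
  unfold sq
  rw [← ENNReal.tsum_mul_left, ← ENNReal.tsum_mul_left, ← ENNReal.tsum_add]
  refine ENNReal.tsum_le_tsum fun i => ?_
  have h1 : ‖(x + y) (ξ i)‖ ^ 2 ≤ 2 * ‖x (ξ i)‖ ^ 2 + 2 * ‖y (ξ i)‖ ^ 2 := by
    have h2 : ‖(x + y) (ξ i)‖ ≤ ‖x (ξ i)‖ + ‖y (ξ i)‖ := norm_add_le _ _
    have h3 := norm_nonneg ((x + y) (ξ i))
    nlinarith [sq_nonneg (‖x (ξ i)‖ - ‖y (ξ i)‖), norm_nonneg (x (ξ i)), norm_nonneg (y (ξ i))]
  have h4 : (2 : ENNReal) = ENNReal.ofReal 2 := by norm_num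
  rw [h4, ← ENNReal.ofReal_mul (by norm_num), ← ENNReal.ofReal_mul (by norm_num),
    ← ENNReal.ofReal_add (by positivity) (by positivity)]
  exact ENNReal.ofReal_le_ofReal h1

/-- the elements of finite square weight -/
noncomputable def fin (P : A →ₗ[ℂ] (H →L[ℂ] H)) (ξ : ι → H) : Submodule ℂ A where
  carrier := {a | sq ξ (P a) < ⊤}
  add_mem' := by
    intro a b ha hb
    change sq ξ (P (a + b)) < ⊤
    rw [map_add]
    refine (sq_add_le ξ _ _).trans_lt ?_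
    exact ENNReal.add_lt_top.2 ⟨ENNReal.mul_lt_top (by norm_num) ha,
      ENNReal.mul_lt_top (by norm_num) hb⟩
  zero_mem' := by
    change sq ξ (P 0) < ⊤
    rw [map_zero]
    unfold sq
    simp
  smul_mem' := by
    intro c a ha
    change sq ξ (P (c • a)) < ⊤
    rw [map_smul, sq_smul]
    exact ENNReal.mul_lt_top ENNReal.ofReal_lt_top ha

theorem summable_of_sq (ξ : ι → H) (x : H →L[ℂ] H) (h : sq ξ x < ⊤) :
    Summable fun i => ‖x (ξ i)‖ ^ 2 := by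
  have h1 := ENNReal.summable_toReal h.ne
  refine h1.congr fun i => ?_
  exact ENNReal.toReal_ofReal (by positivity)

theorem mem_of_sq (ξ : ι → H) (x : H →L[ℂ] H) (h : sq ξ x < ⊤) :
    Memℓp (E := fun _ : ι => H) (fun i => x (ξ i)) 2 := by
  apply memℓp_gen
  simpa using summable_of_sq ξ x h

/-- the representing vectors -/
noncomputable def JJ (P : A →ₗ[ℂ] (H →L[ℂ] H)) (ξ : ι → H) :
    fin P ξ →ₗ[ℂ] lp (fun _ : ι => H) 2 where
  toFun a := ⟨fun i => P a (ξ i), mem_of_sq ξ (P a) a.2⟩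
  map_add' a b := by
    apply Subtype.ext
    funext i
    change P ((a : A) + b) (ξ i) = P a (ξ i) + P b (ξ i)
    rw [map_add]
    rfl
  map_smul' c a := by
    apply Subtype.ext
    funext i
    change P (c • (a : A)) (ξ i) = c • P a (ξ i)
    rw [map_smul]
    rfl

theorem JJ_norm (P : A →ₗ[ℂ] (H →L[ℂ] H)) (ξ : ι → H) (a : fin P ξ) :
    ENNReal.ofReal (‖JJ P ξ a‖ ^ 2) = sq ξ (P a) := by
  have h := lp.hasSum_norm (E := fun _ : ι => H) (p := 2) (by norm_num) (JJ P ξ a)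
  have hc : ∀ i, (JJ P ξ a) i = P a (ξ i) := fun i => rfl
  have h1 : HasSum (fun i => ‖P a (ξ i)‖ ^ 2) (‖JJ P ξ a‖ ^ 2) := by
    simp only [hc] at h
    simpa using h
  rw [← h1.tsum_eq, ENNReal.ofReal_tsum_of_nonneg (fun i => by positivity) h1.summable]
  rfl

theorem restrict_pow (α : A →ₗ[ℂ] A) (V : Submodule ℂ A) (h : ∀ a ∈ V, α a ∈ V) (n : ℕ) (a : V) :
    (((α.restrict h) ^ n) a : A) = (α ^ n) a := by
  induction n with
  | zero => simp
  | succ n ih =>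
    rw [pow_succ', pow_succ']
    change α ((((α.restrict h) ^ n) a : V) : A) = α ((α ^ n) a)
    rw [ih]

/-- the logarithmic saving for a weight -/
theorem weight_mu (P : A →ₗ[ℂ] (H →L[ℂ] H)) (ξ : ι → H) (α : A →ₗ[ℂ] A)
    (hα : ∀ a, sq ξ (P (α a)) ≤ sq ξ (P a)) (a : A) (ha : sq ξ (P a) < ⊤) :
    ∃ D : ℕ → ℝ, ∀ U N : ℕ, 2 ≤ N →
      sq ξ (P (∑ n ∈ Icc 1 N, ((ArithmeticFunction.moebius n : ℤ) : ℂ) • (α ^ n) a)) ≤
        ENNReal.ofReal ((D U * (N / Real.log N ^ U)) ^ 2) := by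
  obtain ⟨D, hD0, hD⟩ := vn_mu (H := lp (fun _ : ι => H) 2) (V := fin P ξ)
  have hr : ∀ b ∈ fin P ξ, α b ∈ fin P ξ := fun b hb => (hα b).trans_lt hb
  let a' : fin P ξ := ⟨a, ha⟩
  refine ⟨fun U => D U * ‖JJ P ξ a'‖, fun U N hN => ?_⟩
  have h1 := hD (JJ P ξ) (α.restrict hr) (fun b => by
    have h2 : ENNReal.ofReal (‖JJ P ξ (α.restrict hr b)‖ ^ 2) ≤
        ENNReal.ofReal (‖JJ P ξ b‖ ^ 2) := by
      rw [JJ_norm, JJ_norm]
      exact hα b
    rw [ENNReal.ofReal_le_ofReal_iff (by positivity)] at h2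
    exact (abs_le_of_sq_le_sq' h2 (norm_nonneg _)).2) a' U N hN
  set b' : fin P ξ := ∑ n ∈ Icc 1 N, ((ArithmeticFunction.moebius n : ℤ) : ℂ) •
    ((α.restrict hr) ^ n) a' with hb'
  have h3 : (b' : A) = ∑ n ∈ Icc 1 N, ((ArithmeticFunction.moebius n : ℤ) : ℂ) • (α ^ n) a := by
    rw [hb', Submodule.coe_sum]
    refine Finset.sum_congr rfl fun n _ => ?_
    rw [Submodule.coe_smul, restrict_pow]
  rw [← h3, ← JJ_norm]
  apply ENNReal.ofReal_le_ofReal
  refine pow_le_pow_left₀ (norm_nonneg _) (h1.trans (le_of_eq ?_)) 2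
  ring

end Pool.Agent.H50.AU
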